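import Pool.Agent.NH75.LW.Stm

/-!
# Project LW, job CH: the chain of local estimates
-/

set_option autoImplicit false

namespace Pool.Agent.NH75.LW

open Set Filter Topology
open scoped ContDiff

namespace CH

/-- restriction of an argument -/
lemma arg_mono {a b a' b' : ℝ} {A B φ : ℝ → ℝ} (h : Arg a b A B φ) (h1 : a ≤ a') (h2 : b' ≤ b) :
    Arg a' b' A B φ := by
  have hs : Icc a' b' ⊆ Icc a b := Icc_subset_Icc h1 h2
  exact ⟨h.1.mono hs, fun t ht => h.2 t (hs ht)⟩

/-- transitivity -/
lemma rel_trans {A B : ℝ → ℝ → ℝ} {g : ℝ → ℝ} {c c' : ℤ} {s t u : ℝ} (hst : s ≤ t) (htu : t ≤ u)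
    (h : Rel A B g c s t) (h' : Rel A B g c' t u) : Rel A B g (c + c') s u := by
  obtain ⟨δ, hδ, H⟩ := h
  obtain ⟨δ', hδ', H'⟩ := h'
  refine ⟨min δ δ', lt_min hδ hδ', fun r hr hrδ φ hφ => ?_⟩
  have h1 := H r hr (lt_of_lt_of_le hrδ (min_le_left _ _)) φ (arg_mono hφ le_rfl htu)
  have h2 := H' r hr (lt_of_lt_of_le hrδ (min_le_right _ _)) φ (arg_mono hφ hst le_rfl)
  linarith

/-- the critical set inside of `(a, b)` -/
def Y (g : ℝ → ℝ) (a b : ℝ) : Set ℝ := {z | z ∈ Ioo a b ∧ ¬ (g z ≠ 0 ∧ deriv g z ≠ 0)}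

lemma finY {g : ℝ → ℝ} (h : ∀ t₀, ∀ᶠ t in 𝓝[≠] t₀, g t ≠ 0 ∧ deriv g t ≠ 0) (a b : ℝ) :
    (Y g a b).Finite := by
  by_contra hinf
  have hinf' : (Y g a b).Infinite := hinf
  have hsub : Y g a b ⊆ Icc a b := fun z hz => Ioo_subset_Icc_self hz.1
  obtain ⟨x, _, hx⟩ := hinf'.exists_accPt_of_subset_isCompact isCompact_Icc hsub
  rw [accPt_iff_frequently_nhdsNE] at hx
  exact (hx.and_eventually (h x)).exists.elim fun y hy => hy.1.2 hy.2

lemma chain (A B : ℝ → ℝ → ℝ) (g : ℝ → ℝ) (m : ℝ → ℕ)
    (h2 : ∀ a b, a ≤ b → (∀ t ∈ Icc a b, g t ≠ 0 ∧ deriv g t ≠ 0) → Rel A B g 0 a b)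
    (h3 : ∀ t₀, ∃ δ > 0, ∀ s t, t₀ - δ < s → s < t₀ → t₀ < t → t < t₀ + δ →
      Rel A B g (cost (m t₀)) s t)
    (h4 : ∀ t₀, ∀ᶠ t in 𝓝[≠] t₀, g t ≠ 0 ∧ deriv g t ≠ 0) (h5 : ∀ t, g t ≠ 0 → m t = 0)
    (n : ℕ) : ∀ a b, a < b → (g a ≠ 0 ∧ deriv g a ≠ 0) → (g b ≠ 0 ∧ deriv g b ≠ 0) →
      (Y g a b).ncard = n →
      ∃ Z : Finset ℝ, (∀ z, z ∈ Z ↔ z ∈ Ioo a b ∧ g z = 0) ∧
        Rel A B g (∑ z ∈ Z, cost (m z)) a b := by
  induction n using Nat.strong_induction_on with
  | _ n ih =>
    intro a b hab ha hb hn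
    by_cases hne : (Y g a b).Nonempty
    · obtain ⟨z, hz, hzmin⟩ := Set.exists_min_image (Y g a b) id (finY h4 a b) hne
      simp only [id] at hzmin
      obtain ⟨δ, hδ, hR⟩ := h3 z
      obtain ⟨ε, hε, hgood⟩ : ∃ ε > 0, ∀ t, |t - z| < ε → t ≠ z → g t ≠ 0 ∧ deriv g t ≠ 0 := by
        have := h4 z
        rw [eventually_nhdsWithin_iff, Metric.eventually_nhds_iff] at this
        obtain ⟨ε, hε, h⟩ := this
        exact ⟨ε, hε, fun t ht hne => h (by rwa [Real.dist_eq]) hne⟩
      have haz : a < z := hz.1.1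
      have hzb : z < b := hz.1.2
      set η : ℝ := min (min δ ε) (min (z - a) (b - z)) / 2 with hη
      have hmin : 0 < min (min δ ε) (min (z - a) (b - z)) :=
        lt_min (lt_min hδ hε) (lt_min (by linarith) (by linarith))
      have hη0 : 0 < η := by rw [hη]; linarith
      have hη1 : η < δ := by
        have : min (min δ ε) (min (z - a) (b - z)) ≤ δ := (min_le_left _ _).trans (min_le_left _ _)
        linarith
      have hη2 : η < ε := by
        have : min (min δ ε) (min (z - a) (b - z)) ≤ ε := (min_le_left _ _).trans (min_le_right _ _)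
        linarith
      have hη3 : η < z - a := by
        have : min (min δ ε) (min (z - a) (b - z)) ≤ z - a :=
          (min_le_right _ _).trans (min_le_left _ _)
        linarith
      have hη4 : η < b - z := by
        have : min (min δ ε) (min (z - a) (b - z)) ≤ b - z :=
          (min_le_right _ _).trans (min_le_right _ _)
        linarith
      -- near `z`
      have hnear : ∀ y, z - η ≤ y → y ≤ z + η → y ≠ z → g y ≠ 0 ∧ deriv g y ≠ 0 := by
        intro y hy1 hy2 hyz
        refine hgood y ?_ hyz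
        rw [abs_lt]
        constructor <;> linarith
      have hgs : g (z - η) ≠ 0 ∧ deriv g (z - η) ≠ 0 :=
        hnear _ le_rfl (by linarith) (by linarith)
      have hgt : g (z + η) ≠ 0 ∧ deriv g (z + η) ≠ 0 :=
        hnear _ (by linarith) le_rfl (by linarith)
      -- left part
      have hleft : Rel A B g 0 a (z - η) := by
        refine h2 a (z - η) (by linarith) fun t ht => ?_
        by_contra hbad
        rcases eq_or_lt_of_le ht.1 with h | h
        · rw [← h] at hbad; exact hbad ha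
        · have : z ≤ t := hzmin t ⟨⟨h, by linarith [ht.2]⟩, hbad⟩
          linarith [ht.2]
      have hmid : Rel A B g (cost (m z)) (z - η) (z + η) :=
        hR _ _ (by linarith) (by linarith) (by linarith) (by linarith)
      -- right part
      have hsub : Y g (z + η) b ⊆ Y g a b := fun y hy =>
        ⟨⟨by linarith [hy.1.1], hy.1.2⟩, hy.2⟩
      have hcard : (Y g (z + η) b).ncard < n := by
        rw [← hn]
        refine Set.ncard_lt_ncard ⟨hsub, fun hcon => ?_⟩ (finY h4 a b)
        have := (hcon hz).1.1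
        linarith
      obtain ⟨Z', hZ', hR'⟩ := ih _ hcard (z + η) b (by linarith) hgt hb rfl
      have hall : Rel A B g (0 + cost (m z) + ∑ y ∈ Z', cost (m y)) a b :=
        rel_trans (by linarith) (by linarith)
          (rel_trans (by linarith) (by linarith) hleft hmid) hR'
      have hzero : ∀ y, y ∈ Ioo a b → g y = 0 → y = z ∨ y ∈ Ioo (z + η) b := by
        intro y hy hgy
        have hyY : y ∈ Y g a b := ⟨hy, fun h => h.1 hgy⟩
        have hzy : z ≤ y := hzmin y hyY
        by_cases hyz : y = z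
        · exact Or.inl hyz
        · right
          refine ⟨?_, hy.2⟩
          by_contra hcon
          push Not at hcon
          exact (hnear y (by linarith) hcon hyz).1 hgy
      by_cases hgz : g z = 0
      · have hzZ : z ∉ Z' := fun h => by
          have := ((hZ' z).1 h).1.1
          linarith
        refine ⟨insert z Z', fun y => ?_, ?_⟩
        · rw [Finset.mem_insert, hZ']
          constructor
          · rintro (rfl | ⟨h, h'⟩)
            · exact ⟨hz.1, hgz⟩
            · exact ⟨⟨by linarith [h.1], h.2⟩, h'⟩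
          · rintro ⟨h, h'⟩
            rcases hzero y h h' with h'' | h''
            · exact Or.inl h''
            · exact Or.inr ⟨h'', h'⟩
        · rw [Finset.sum_insert hzZ]
          simpa using hall
      · refine ⟨Z', fun y => ?_, ?_⟩
        · rw [hZ']
          constructor
          · rintro ⟨h, h'⟩
            exact ⟨⟨by linarith [h.1], h.2⟩, h'⟩
          · rintro ⟨h, h'⟩
            rcases hzero y h h' with h'' | h''
            · rw [h''] at h'; exact absurd h' hgz
            · exact ⟨h'', h'⟩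
        · have : cost (m z) = 0 := by rw [h5 z hgz]; rfl
          rw [this] at hall
          simpa using hall
    · have hgood : ∀ t ∈ Icc a b, g t ≠ 0 ∧ deriv g t ≠ 0 := by
        intro t ht
        rcases eq_or_lt_of_le ht.1 with h | h
        · rw [← h]; exact ha
        rcases eq_or_lt_of_le ht.2 with h' | h'
        · rw [h']; exact hb
        by_contra hbad
        exact hne ⟨t, ⟨h, h'⟩, hbad⟩
      refine ⟨∅, fun z => ?_, ?_⟩
      · simp only [Finset.notMem_empty, false_iff, not_and]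
        intro hz
        exact (hgood z (Ioo_subset_Icc_self hz)).1
      · rw [Finset.sum_empty]
        exact h2 a b hab.le hgood

end CH

theorem t_CH : S_CH := by
  intro A B g m _ h2 h3 h4 h5 a b hab ha ha' hb hb'
  exact CH.chain A B g m h2 h3 h4 h5 _ a b hab ⟨ha, ha'⟩ ⟨hb, hb'⟩ rfl

end Pool.Agent.NH75.LW
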