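import Pool.Agent.NH75.LW.Stm

/-!
Project LW, job LOCM: local rotation at a zero of order `m ≥ 2`.
-/

set_option autoImplicit false

namespace Pool.Agent.NH75.LW

open Set Filter Topology
open scoped ContDiff

namespace LOCM

theorem posl {a b : ℝ} (h : 0 < a * b) (ha : 0 ≤ a) : 0 < b :=
  pos_of_mul_pos_right h ha

theorem conv0 {F : ℝ → ℝ → ℝ} {F₀ : ℝ → ℝ} (hF : Conv F F₀) (t : ℝ) (h : F₀ t ≠ 0) :
    ∃ δ > 0, ∀ r, 0 < r → r < δ → 0 < F r t * F₀ t := by
  obtain ⟨δ, hδ, hd⟩ := hF.2.2 0 |F₀ t| (abs_pos.2 h)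
  refine ⟨δ, hδ, fun r h0 h1 => ?_⟩
  have h2 := hd r h0 h1 t
  rw [iteratedDeriv_zero, iteratedDeriv_zero] at h2
  rcases lt_or_gt_of_ne h with h3 | h3
  · rw [abs_of_neg h3] at h2
    have h4 := (abs_lt.1 h2).2
    apply mul_pos_of_neg_of_neg _ h3
    linarith
  · rw [abs_of_pos h3] at h2
    have h4 := (abs_lt.1 h2).1
    apply mul_pos _ h3
    linarith

theorem iA {α : ℝ} {g : ℝ → ℝ} (hg : ContDiff ℝ ∞ g) (j : ℕ) (t : ℝ) :
    iteratedDeriv j (fun t => α * g t - deriv (deriv g) t) t =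
      α * iteratedDeriv j g t - iteratedDeriv (j + 2) g t := by
  have h1 : ContDiff ℝ ∞ (deriv g) := by
    have := hg.iterate_deriv 1
    simpa using this
  have h2 : ContDiff ℝ ∞ (deriv (deriv g)) := by
    have := hg.iterate_deriv 2
    simpa using this
  rw [iteratedDeriv_fun_sub ((contDiff_const.mul hg).of_le (by exact_mod_cast le_top)).contDiffAt
    (h2.of_le (by exact_mod_cast le_top)).contDiffAt,
    iteratedDeriv_succ', iteratedDeriv_succ']
  congr 1
  rw [iteratedDeriv_const_mul_field]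

theorem iB {β : ℝ} {g : ℝ → ℝ} (j : ℕ) (t : ℝ) :
    iteratedDeriv j (fun t => β * deriv g t) t = β * iteratedDeriv (j + 1) g t := by
  rw [iteratedDeriv_succ', iteratedDeriv_const_mul_field]

end LOCM

open LOCM in
theorem t_LOCM : S_LOCM := by
  intro hPH hROL hSG α β g A B hD t₀ m hm hz hN
  obtain ⟨n, rfl⟩ : ∃ n, m = n + 2 := ⟨m - 2, by omega⟩
  set N := iteratedDeriv (n + 2) g t₀ with hNdef
  have hα := hD.hα
  have hβ := hD.hβ
  have hN2 : 0 < β * N ^ 2 := mul_pos hβ (by positivity)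
  have eA : iteratedDeriv n (fun t => α * g t - deriv (deriv g) t) t₀ = -N := by
    rw [iA hD.hg, hz n (by omega)]
    ring
  have eB : iteratedDeriv (n + 1) (fun t => β * deriv g t) t₀ = β * N := by
    rw [iB]
  obtain ⟨δ₁, hδ₁, h1⟩ := hSG n (fun t => α * g t - deriv (deriv g) t) t₀ hD.cA.2.1
    (fun j hj => by rw [iA hD.hg, hz j (by omega), hz (j + 2) (by omega)]; ring)
    (by rw [eA]; exact neg_ne_zero.2 hN)
  obtain ⟨δ₂, hδ₂, h2⟩ := hSG (n + 1) (fun t => β * deriv g t) t₀ hD.cB.2.1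
    (fun j hj => by rw [iB, hz (j + 1) (by omega)]; ring)
    (by rw [eB]; exact mul_ne_zero hβ.ne' hN)
  obtain ⟨δ₃, hδ₃, h3⟩ := hSG (n + 2) g t₀ hD.hg hz hN
  rw [eA] at h1
  rw [eB] at h2
  rw [← hNdef] at h3
  -- continuity of the derivative of order `n` of the limit
  have hcont : Continuous (iteratedDeriv n (fun t => α * g t - deriv (deriv g) t)) :=
    hD.cA.2.1.continuous_iteratedDeriv n (by exact_mod_cast le_top)
  have hN0 : 0 < |N| := abs_pos.2 hN
  obtain ⟨δ₄, hδ₄, h4⟩ := Metric.continuousAt_iff.1 (hcont.continuousAt (x := t₀)) (|N| / 2)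
    (half_pos hN0)
  refine ⟨min (min δ₁ δ₂) (min δ₃ δ₄), by positivity, ?_⟩
  intro s t hs hs0 ht0 ht
  have m1 : min (min δ₁ δ₂) (min δ₃ δ₄) ≤ δ₁ := (min_le_left _ _).trans (min_le_left _ _)
  have m2 : min (min δ₁ δ₂) (min δ₃ δ₄) ≤ δ₂ := (min_le_left _ _).trans (min_le_right _ _)
  have m3 : min (min δ₁ δ₂) (min δ₃ δ₄) ≤ δ₃ := (min_le_right _ _).trans (min_le_left _ _)
  have m4 : min (min δ₁ δ₂) (min δ₃ δ₄) ≤ δ₄ := (min_le_right _ _).trans (min_le_right _ _)
  have s1 := (h1 (t₀ - s) (by linarith) (by linarith)).2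
  have s2 := (h2 (t₀ - s) (by linarith) (by linarith)).2
  have s3 := (h3 (t₀ - s) (by linarith) (by linarith)).2
  have t1 := (h1 (t - t₀) (by linarith) (by linarith)).1
  have t2 := (h2 (t - t₀) (by linarith) (by linarith)).1
  have t3 := (h3 (t - t₀) (by linarith) (by linarith)).1
  rw [show t₀ - (t₀ - s) = s by ring] at s1 s2 s3
  rw [show t₀ + (t - t₀) = t by ring] at t1 t2 t3
  set a := fun t => α * g t - deriv (deriv g) t with ha
  set b := fun t => β * deriv g t with hb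
  have hsgn : ((-1 : ℝ) ^ n) * (-1) ^ n = 1 := by
    rw [← mul_pow]; norm_num
  -- signs of the limits
  have q1 : a t * b t < 0 := by
    have h5 := mul_pos t1 t2
    have h6 : (-N * a t) * (β * N * b t) = (β * N ^ 2) * -(a t * b t) := by ring
    rw [h6] at h5
    have := posl h5 hN2.le
    linarith
  have q2 : 0 < a s * b s := by
    have h5 := mul_pos s1 s2
    have h6 : ((-1) ^ n * -N * a s) * ((-1) ^ (n + 1) * (β * N) * b s) =
        (β * N ^ 2) * (((-1 : ℝ) ^ n * (-1) ^ n) * (a s * b s)) := by ring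
    rw [h6, hsgn, one_mul] at h5
    exact posl h5 hN2.le
  have q3 : 0 < g t * deriv g t := by
    have h5 := mul_pos t3 t2
    have h6 : (N * g t) * (β * N * b t) = (β * N ^ 2) * (β * (g t * deriv g t)) := by
      rw [hb]; ring
    rw [h6] at h5
    exact posl (posl h5 hN2.le) hβ.le
  have q4 : g s * deriv g s < 0 := by
    have h5 := mul_pos s3 s2
    have h6 : ((-1) ^ (n + 2) * N * g s) * ((-1) ^ (n + 1) * (β * N) * b s) =
        (β * N ^ 2) * (β * (((-1 : ℝ) ^ n * (-1) ^ n) * -(g s * deriv g s))) := by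
      rw [hb]; ring
    rw [h6, hsgn, one_mul] at h5
    have := posl (posl h5 hN2.le) hβ.le
    linarith
  have p1 : psi g t = 1 := by rw [psi, if_pos q3]
  have p2 : psi g s = 0 := by rw [psi, if_neg (by linarith)]
  -- small radii
  obtain ⟨ρ₁, hρ₁, r1⟩ := conv0 hD.cA s (left_ne_zero_of_mul q2.ne')
  obtain ⟨ρ₂, hρ₂, r2⟩ := conv0 hD.cB s (right_ne_zero_of_mul q2.ne')
  obtain ⟨ρ₃, hρ₃, r3⟩ := conv0 hD.cA t (left_ne_zero_of_mul q1.ne)
  obtain ⟨ρ₄, hρ₄, r4⟩ := conv0 hD.cB t (right_ne_zero_of_mul q1.ne)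
  obtain ⟨ρ₅, hρ₅, r5⟩ := hD.cA.2.2 n (|N| / 2) (half_pos hN0)
  obtain ⟨ρ₆, hρ₆, r6⟩ := hD.cA.1
  refine ⟨min (min ρ₁ ρ₂) (min (min ρ₃ ρ₄) (min ρ₅ ρ₆)), by positivity, ?_⟩
  intro r hr0 hr φ hφ
  simp only [lt_min_iff] at hr
  obtain ⟨⟨l1, l2⟩, ⟨l3, l4⟩, l5, l6⟩ := hr
  have k1 := r1 r hr0 l1
  have k2 := r2 r hr0 l2
  have k3 := r3 r hr0 l3
  have k4 := r4 r hr0 l4
  have u1 : 0 < A r s * B r s := by
    have h5 := mul_pos k1 k2
    have h6 : (A r s * a s) * (B r s * b s) = (a s * b s) * (A r s * B r s) := by ring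
    exact posl (h6 ▸ h5) q2.le
  have u2 : A r t * B r t < 0 := by
    have h5 := mul_pos k3 k4
    have h6 : (A r t * a t) * (B r t * b t) = -(a t * b t) * -(A r t * B r t) := by ring
    have := posl (h6 ▸ h5) (by linarith : (0 : ℝ) ≤ -(a t * b t))
    linarith
  have hZ : Zer n s t (A r) := by
    refine hROL n s t (A r) (r6 r hr0 l6) fun x hx => ?_
    have h7 := r5 r hr0 l5 x
    have h8 := h4 (x := x) (by
      rw [Real.dist_eq, abs_lt]
      constructor <;> [linarith [hx.1]; linarith [hx.2]])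
    rw [Real.dist_eq, eA] at h8
    intro h9
    rw [h9] at h7
    have h10 : |N| ≤ |iteratedDeriv n a x - -N| + |0 - iteratedDeriv n a x| := by
      calc |N| = |(iteratedDeriv n a x - -N) + (0 - iteratedDeriv n a x)| := by
            congr 1; ring
        _ ≤ _ := abs_add_le _ _
    linarith
  have h11 := (hPH n s t (A r) (B r) φ (by linarith) hφ).2 u1 u2 hZ
  rw [p1, p2]
  push_cast
  linarith

end Pool.Agent.NH75.LW
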