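import Pool.Agent.NH75.LW.Stm

/-!
# Project LW, job PH1: arguments and half planes I
-/

set_option autoImplicit false

namespace Pool.Agent.NH75.LW

open Set Filter Topology

namespace PH1

theorem floor_const {a b : ℝ} {F : ℝ → ℝ} (hab : a ≤ b) (hF : ContinuousOn F (Icc a b))
    (h : ∀ t ∈ Icc a b, ∀ n : ℤ, F t ≠ n) : ⌊F b⌋ = ⌊F a⌋ := by
  rcases lt_trichotomy ⌊F b⌋ ⌊F a⌋ with hlt | heq | hgt
  · exfalso
    have h1 : F b ≤ (⌊F a⌋ : ℝ) := by
      have h2 := Int.lt_floor_add_one (F b)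
      have h3 : ((⌊F b⌋ + 1 : ℤ) : ℝ) ≤ (⌊F a⌋ : ℝ) := by exact_mod_cast hlt
      push_cast at h3
      linarith
    obtain ⟨t, ht, he⟩ := intermediate_value_Icc' hab hF ⟨h1, Int.floor_le (F a)⟩
    exact h t ht _ he
  · exact heq
  · exfalso
    have h1 : F a ≤ (⌊F b⌋ : ℝ) := by
      have h2 := Int.lt_floor_add_one (F a)
      have h3 : ((⌊F a⌋ + 1 : ℤ) : ℝ) ≤ (⌊F b⌋ : ℝ) := by exact_mod_cast hgt
      push_cast at h3
      linarith
    obtain ⟨t, ht, he⟩ := intermediate_value_Icc hab hF ⟨h1, Int.floor_le (F b)⟩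
    exact h t ht _ he

theorem neg_one_zpow_sq (n : ℤ) : ((-1 : ℝ) ^ n) * ((-1 : ℝ) ^ n) = 1 := by
  rcases Int.even_or_odd n with h | h
  · rw [h.neg_one_zpow, one_mul]
  · rw [h.neg_one_zpow]
    norm_num

theorem ph_eq {x : ℝ} (hc : 0 < Real.cos x) (hs : Real.sin x ≠ 0) :
    ph x = ⌊x / Real.pi - 1 / 2⌋ + (if 0 < Real.sin x then 1 else 0) := by
  have hpi := Real.pi_pos
  set N : ℤ := ⌊x / Real.pi - 1 / 2⌋ with hN
  have h1 : (N : ℝ) ≤ x / Real.pi - 1 / 2 := Int.floor_le _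
  have h2 : x / Real.pi - 1 / 2 < N + 1 := Int.lt_floor_add_one _
  set u : ℝ := x - N * Real.pi with hu
  have hsu : Real.sin u = (-1) ^ N * Real.sin x := Real.sin_sub_int_mul_pi x N
  have hcu : Real.cos u = (-1) ^ N * Real.cos x := Real.cos_sub_int_mul_pi x N
  have hpr : Real.sin u * Real.cos u = Real.sin x * Real.cos x := by
    rw [hsu, hcu]
    have := neg_one_zpow_sq N
    calc (-1 : ℝ) ^ N * Real.sin x * ((-1) ^ N * Real.cos x)
        = ((-1 : ℝ) ^ N * (-1) ^ N) * (Real.sin x * Real.cos x) := by ring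
      _ = _ := by rw [this, one_mul]
  have hxy : x = x / Real.pi * Real.pi := by field_simp
  have hu1 : Real.pi / 2 ≤ u := by
    rw [hu]
    nlinarith
  have hu2 : u < 3 * Real.pi / 2 := by
    rw [hu]
    nlinarith
  unfold ph
  split_ifs with hpos
  · rw [Int.floor_eq_iff]
    push_cast
    refine ⟨?_, by linarith⟩
    by_contra hlt
    push Not at hlt
    have hu3 : u < Real.pi := by
      rw [hu]
      nlinarith
    have h5 : 0 < Real.sin u := Real.sin_pos_of_pos_of_lt_pi (by linarith) hu3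
    have h6 : Real.cos u ≤ 0 := Real.cos_nonpos_of_pi_div_two_le_of_le hu1 (by linarith)
    have h7 : Real.sin u * Real.cos u ≤ 0 := mul_nonpos_of_nonneg_of_nonpos h5.le h6
    rw [hpr] at h7
    have h8 : 0 < Real.sin x * Real.cos x := mul_pos hpos hc
    linarith
  · have hneg : Real.sin x < 0 := lt_of_le_of_ne (not_lt.1 hpos) hs
    rw [add_zero, Int.floor_eq_iff]
    refine ⟨by linarith, ?_⟩
    by_contra hge
    push Not at hge
    have hu3 : Real.pi ≤ u := by
      rw [hu]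
      nlinarith
    have h5 : 0 ≤ Real.sin (u - Real.pi) :=
      Real.sin_nonneg_of_nonneg_of_le_pi (by linarith) (by linarith)
    have h6 : 0 ≤ Real.cos (u - Real.pi) :=
      Real.cos_nonneg_of_neg_pi_div_two_le_of_le (by linarith) (by linarith)
    rw [Real.sin_sub_pi] at h5
    rw [Real.cos_sub_pi] at h6
    have h7 : 0 ≤ Real.sin u * Real.cos u := by nlinarith
    rw [hpr] at h7
    have h8 : Real.sin x * Real.cos x < 0 := mul_neg_of_neg_of_pos hneg hc
    linarith

theorem ph_add_pi (x : ℝ) : ph (x + Real.pi) = ph x + 1 := by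
  unfold ph
  rw [add_div, div_self Real.pi_ne_zero, Int.floor_add_one]

theorem part2 {a b : ℝ} {A B φ : ℝ → ℝ} (hab : a ≤ b) (hφ : Arg a b A B φ)
    (hA : ∀ t ∈ Icc a b, 0 < A t) (ha : B a ≠ 0) (hb : B b ≠ 0) :
    ph (φ b) - ph (φ a) = (if 0 < B b then 1 else 0) - (if 0 < B a then 1 else 0) := by
  have hcos : ∀ t ∈ Icc a b, 0 < Real.cos (φ t) := by
    intro t ht
    obtain ⟨ρ, hρ, e1, -⟩ := hφ.2 t ht
    have := hA t ht
    rw [e1] at this
    exact (pos_iff_pos_of_mul_pos this).1 hρ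
  have hsin : ∀ t ∈ Icc a b, B t ≠ 0 → Real.sin (φ t) ≠ 0 ∧
      (if 0 < Real.sin (φ t) then (1 : ℤ) else 0) = if 0 < B t then 1 else 0 := by
    intro t ht h0
    obtain ⟨ρ, hρ, -, e2⟩ := hφ.2 t ht
    rw [e2] at h0 ⊢
    refine ⟨fun h => h0 (by rw [h, mul_zero]), ?_⟩
    have : 0 < ρ * Real.sin (φ t) ↔ 0 < Real.sin (φ t) := mul_pos_iff_of_pos_left hρ
    simp only [this]
  have hma : a ∈ Icc a b := left_mem_Icc.2 hab
  have hmb : b ∈ Icc a b := right_mem_Icc.2 hab
  have hfl : ⌊φ b / Real.pi - 1 / 2⌋ = ⌊φ a / Real.pi - 1 / 2⌋ := by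
    refine floor_const (F := fun t => φ t / Real.pi - 1 / 2) hab
      ((hφ.1.div_const _).sub continuousOn_const) ?_
    intro t ht n hn
    have h1 := hcos t ht
    have h2 : φ t = (2 * n + 1) * Real.pi / 2 := by
      have h3 : φ t / Real.pi = n + 1 / 2 := by
        linarith
      have h4 : φ t = φ t / Real.pi * Real.pi := by
        field_simp
      rw [h4, h3]
      ring
    rw [Real.cos_eq_zero_iff.2 ⟨n, h2⟩] at h1
    exact lt_irrefl _ h1
  obtain ⟨sa, ea⟩ := hsin a hma ha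
  obtain ⟨sb, eb⟩ := hsin b hmb hb
  rw [ph_eq (hcos b hmb) sb, ph_eq (hcos a hma) sa, hfl, ea, eb]
  ring

end PH1

open PH1 in
theorem t_PH1 : S_PH1 := by
  intro a b A B φ hab hφ
  refine ⟨?_, part2 hab hφ, ?_⟩
  · intro hB
    unfold ph
    refine floor_const (F := fun t => φ t / Real.pi) hab (hφ.1.div_const _) ?_
    intro t ht n hn
    obtain ⟨ρ, hρ, -, e2⟩ := hφ.2 t ht
    apply hB t ht
    rw [e2]
    have h4 : (n : ℝ) * Real.pi = φ t := by
      rw [← hn]
      field_simp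
    rw [Real.sin_eq_zero_iff.2 ⟨n, h4⟩, mul_zero]
  · intro hA ha hb
    have h1 : Arg a b (fun t => -A t) (fun t => -B t) (fun t => φ t + Real.pi) := by
      refine ⟨hφ.1.add continuousOn_const, ?_⟩
      intro t ht
      obtain ⟨ρ, hρ, e1, e2⟩ := hφ.2 t ht
      refine ⟨ρ, hρ, ?_, ?_⟩
      · simp only
        rw [Real.cos_add_pi, e1]
        ring
      · simp only
        rw [Real.sin_add_pi, e2]
        ring
    have h2 := part2 hab h1 (fun t ht => by
      have := hA t ht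
      linarith) (neg_ne_zero.2 ha) (neg_ne_zero.2 hb)
    simp only [ph_add_pi] at h2
    have h3 : ∀ x : ℝ, x ≠ 0 → (if 0 < -x then (1 : ℤ) else 0) = 1 - (if 0 < x then 1 else 0) := by
      intro x hx
      rcases lt_or_gt_of_ne hx with h | h
      · rw [if_pos (by linarith), if_neg (by linarith)]
        norm_num
      · rw [if_neg (by linarith), if_pos h]
        norm_num
    rw [h3 _ ha, h3 _ hb] at h2
    linarith

end Pool.Agent.NH75.LW
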