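import Pool.Agent.NH75.LW.Stm

/-!
# Project LW, job PH2: arguments and half planes II
-/

set_option autoImplicit false

namespace Pool.Agent.NH75.LW

open Set Filter Topology

namespace PH2

/-- a continuous function which takes `n + 1` values gives `n + 1` zeros -/
theorem many {a b : ℝ} (hab : a ≤ b) {φ F : ℝ → ℝ} (hφ : ContinuousOn φ (Icc a b)) (n : ℕ)
    (y : Fin (n + 1) → ℝ) (hy : Function.Injective y) (h1 : ∀ i, φ a ≤ y i) (h2 : ∀ i, y i ≤ φ b)
    (h3 : ∀ i, ∀ t ∈ Icc a b, φ t = y i → F t = 0) : ¬ Zer n a b F := by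
  intro hz
  have h : ∀ i, ∃ t ∈ Icc a b, φ t = y i := by
    intro i
    obtain ⟨t, ht, e⟩ := intermediate_value_Icc hab hφ ⟨h1 i, h2 i⟩
    exact ⟨t, ht, e⟩
  choose t ht e using h
  have hinj : Function.Injective t := by
    intro i j hij
    apply hy
    rw [← e i, ← e j, hij]
  have hc := hz (Finset.univ.image t) (by
    intro z hz
    rw [Finset.mem_image] at hz
    obtain ⟨i, -, rfl⟩ := hz
    exact ⟨ht i, h3 i _ (ht i) (e i)⟩)
  rw [Finset.card_image_of_injective _ hinj, Finset.card_univ, Fintype.card_fin] at hc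
  omega

theorem ph_le (x : ℝ) : (ph x : ℝ) * Real.pi ≤ x := by
  have h := Int.floor_le (x / Real.pi)
  rwa [le_div_iff₀ Real.pi_pos] at h

theorem lt_ph (x : ℝ) : x < ((ph x : ℝ) + 1) * Real.pi := by
  have h := Int.lt_floor_add_one (x / Real.pi)
  rwa [div_lt_iff₀ Real.pi_pos] at h

theorem sin_two_sub (x : ℝ) (j : ℤ) : Real.sin (2 * (x - j * Real.pi)) = Real.sin (2 * x) := by
  have e : 2 * (x - j * Real.pi) = 2 * x - j * (2 * Real.pi) := by ring
  rw [e, Real.sin_sub_int_mul_two_pi]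

/-- the first quarter -/
theorem quarter_pos {x : ℝ} (h : 0 < Real.cos x * Real.sin x) :
    x < (ph x : ℝ) * Real.pi + Real.pi / 2 := by
  by_contra hcon
  push Not at hcon
  have h1 := lt_ph x
  have h2 : Real.sin (2 * (x - ph x * Real.pi)) ≤ 0 := by
    rw [Real.sin_two_mul]
    have h3 : 0 ≤ Real.sin (x - ph x * Real.pi) :=
      Real.sin_nonneg_of_nonneg_of_le_pi (by linarith [Real.pi_pos]) (by linarith)
    have h4 : Real.cos (x - ph x * Real.pi) ≤ 0 :=
      Real.cos_nonpos_of_pi_div_two_le_of_le (by linarith) (by linarith [Real.pi_pos])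
    nlinarith
  rw [sin_two_sub, Real.sin_two_mul] at h2
  linarith

/-- the second quarter -/
theorem quarter_neg {x : ℝ} (h : Real.cos x * Real.sin x < 0) :
    (ph x : ℝ) * Real.pi + Real.pi / 2 < x := by
  by_contra hcon
  push Not at hcon
  have h1 := ph_le x
  have h2 : 0 ≤ Real.sin (2 * (x - ph x * Real.pi)) :=
    Real.sin_nonneg_of_nonneg_of_le_pi (by linarith) (by linarith)
  rw [sin_two_sub, Real.sin_two_mul] at h2
  linarith

end PH2

open PH2

theorem t_PH2 : S_PH2 := by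
  intro n a b A B φ hab hφ
  obtain ⟨hc, harg⟩ := hφ
  have hpi := Real.pi_pos
  refine ⟨fun _ _ hz => ?_, fun ha hb hz => ?_⟩
  · by_contra hcon
    push Not at hcon
    have hcon' : (n : ℤ) + 1 ≤ ph (φ b) - ph (φ a) := by omega
    have hr : ((n : ℝ) + 1) ≤ (ph (φ b) : ℝ) - ph (φ a) := by exact_mod_cast hcon'
    refine many hab hc n (fun i => ((ph (φ a) : ℝ) + 1 + (i : ℕ)) * Real.pi) ?_ ?_ ?_ ?_ hz
    · intro i j hij
      have h := mul_right_cancel₀ hpi.ne' hij
      have h' : ((i : ℕ) : ℝ) = (j : ℕ) := by linarith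
      exact Fin.ext (by exact_mod_cast h')
    · intro i
      have h1 := lt_ph (φ a)
      have h2 : 0 ≤ ((i : ℕ) : ℝ) := Nat.cast_nonneg _
      have h3 : 0 ≤ ((i : ℕ) : ℝ) * Real.pi := mul_nonneg h2 hpi.le
      show φ a ≤ ((ph (φ a) : ℝ) + 1 + (i : ℕ)) * Real.pi
      nlinarith
    · intro i
      have h1 := ph_le (φ b)
      have h2 : ((i : ℕ) : ℝ) ≤ n := by exact_mod_cast Nat.lt_succ_iff.1 i.2
      show ((ph (φ a) : ℝ) + 1 + (i : ℕ)) * Real.pi ≤ φ b
      refine le_trans (mul_le_mul_of_nonneg_right ?_ hpi.le) h1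
      linarith
    · intro i t ht hy
      obtain ⟨ρ, -, -, h⟩ := harg t ht
      have e : φ t = ((ph (φ a) + 1 + (i : ℕ) : ℤ) : ℝ) * Real.pi := by
        rw [hy]
        push_cast
        ring
      rw [h, e, Real.sin_int_mul_pi, mul_zero]
  · by_contra hcon
    push Not at hcon
    have hcon' : (n : ℤ) ≤ ph (φ b) - ph (φ a) := by omega
    have hr : (n : ℝ) ≤ (ph (φ b) : ℝ) - ph (φ a) := by exact_mod_cast hcon'
    have qa : φ a < (ph (φ a) : ℝ) * Real.pi + Real.pi / 2 := by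
      obtain ⟨ρ, hρ, h1, h2⟩ := harg a ⟨le_rfl, hab⟩
      apply quarter_pos
      rw [h1, h2] at ha
      have e : ρ * Real.cos (φ a) * (ρ * Real.sin (φ a)) =
          (ρ * ρ) * (Real.cos (φ a) * Real.sin (φ a)) := by ring
      rw [e] at ha
      exact (mul_pos_iff_of_pos_left (mul_pos hρ hρ)).1 ha
    have qb : (ph (φ b) : ℝ) * Real.pi + Real.pi / 2 < φ b := by
      obtain ⟨ρ, hρ, h1, h2⟩ := harg b ⟨hab, le_rfl⟩
      apply quarter_neg
      rw [h1, h2] at hb
      have e : ρ * Real.cos (φ b) * (ρ * Real.sin (φ b)) =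
          (ρ * ρ) * (Real.cos (φ b) * Real.sin (φ b)) := by ring
      rw [e] at hb
      exact neg_of_mul_neg_right hb (mul_pos hρ hρ).le
    refine many hab hc n (fun i => ((ph (φ a) : ℝ) + (i : ℕ)) * Real.pi + Real.pi / 2)
      ?_ ?_ ?_ ?_ hz
    · intro i j hij
      have h0 : ((ph (φ a) : ℝ) + (i : ℕ)) * Real.pi = ((ph (φ a) : ℝ) + (j : ℕ)) * Real.pi := by
        simpa using hij
      have h := mul_right_cancel₀ hpi.ne' h0
      have h' : ((i : ℕ) : ℝ) = (j : ℕ) := by linarith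
      exact Fin.ext (by exact_mod_cast h')
    · intro i
      have h2 : 0 ≤ ((i : ℕ) : ℝ) := Nat.cast_nonneg _
      have h3 : 0 ≤ ((i : ℕ) : ℝ) * Real.pi := mul_nonneg h2 hpi.le
      show φ a ≤ ((ph (φ a) : ℝ) + (i : ℕ)) * Real.pi + Real.pi / 2
      nlinarith
    · intro i
      have h2 : ((i : ℕ) : ℝ) ≤ n := by exact_mod_cast Nat.lt_succ_iff.1 i.2
      show ((ph (φ a) : ℝ) + (i : ℕ)) * Real.pi + Real.pi / 2 ≤ φ b
      have h4 : ((ph (φ a) : ℝ) + (i : ℕ)) * Real.pi ≤ (ph (φ b) : ℝ) * Real.pi :=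
        mul_le_mul_of_nonneg_right (by linarith) hpi.le
      linarith
    · intro i t ht hy
      obtain ⟨ρ, -, h, -⟩ := harg t ht
      have e : φ t = ((ph (φ a) + (i : ℕ) : ℤ) : ℝ) * Real.pi + Real.pi / 2 := by
        rw [hy]
        push_cast
        ring
      have hcos : Real.cos (((ph (φ a) + (i : ℕ) : ℤ) : ℝ) * Real.pi + Real.pi / 2) = 0 := by
        rw [Real.cos_add_pi_div_two, Real.sin_int_mul_pi, neg_zero]
      rw [h, e, hcos, mul_zero]

end Pool.Agent.NH75.LW
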