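import Pool.Agent.NH75.LW.Stm

/-!
Project LW: job ROL, Rolle's theorem iterated.
-/

set_option autoImplicit false

namespace Pool.Agent.NH75.LW

open Set Filter Topology
open scoped ContDiff

namespace ROL

/-- the step: if `F'` has at most `n` zeros, then `F` has at most `n + 1` -/
theorem step (n : ℕ) (a b : ℝ) (F : ℝ → ℝ) (hF : ContDiff ℝ ∞ F) (h : Zer n a b (deriv F)) :
    Zer (n + 1) a b F := by
  classical
  intro Z hZ
  by_contra hcard
  obtain ⟨m, hm⟩ : ∃ m, Z.card = m + 1 := ⟨Z.card - 1, by omega⟩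
  have hmn : n + 1 ≤ m := by omega
  have hmem : ∀ i : Fin (m + 1), Z.orderEmbOfFin hm i ∈ Z := fun i =>
    Finset.orderEmbOfFin_mem Z hm i
  have hR : ∀ i : Fin m, ∃ c ∈ Ioo (Z.orderEmbOfFin hm i.castSucc) (Z.orderEmbOfFin hm i.succ),
      deriv F c = 0 := by
    intro i
    refine exists_deriv_eq_zero ((Z.orderEmbOfFin hm).lt_iff_lt.2 Fin.castSucc_lt_succ)
      hF.continuous.continuousOn ?_
    rw [(hZ _ (hmem i.castSucc)).2, (hZ _ (hmem i.succ)).2]
  choose c hc hc0 using hR
  have hmono : StrictMono c := by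
    intro i j hij
    have h1 : i.succ ≤ j.castSucc := by
      rw [Fin.le_def, Fin.val_succ, Fin.val_castSucc]
      exact hij
    have h2 := (Z.orderEmbOfFin hm).monotone h1
    exact lt_of_lt_of_le (hc i).2 (h2.trans (hc j).1.le)
  have h3 := h (Finset.univ.image c) (by
    intro z hz
    obtain ⟨i, _, rfl⟩ := Finset.mem_image.1 hz
    refine ⟨⟨?_, ?_⟩, hc0 i⟩
    · exact (hZ _ (hmem i.castSucc)).1.1.trans (hc i).1.le
    · exact (hc i).2.le.trans (hZ _ (hmem i.succ)).1.2)
  rw [Finset.card_image_of_injective _ hmono.injective, Finset.card_univ, Fintype.card_fin] at h3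
  omega

end ROL

open ROL in
theorem t_ROL : S_ROL := by
  intro n
  induction n with
  | zero =>
    intro a b F _ h Z hZ
    rw [Nat.le_zero, Finset.card_eq_zero, Finset.eq_empty_iff_forall_notMem]
    intro z hz
    refine h z (hZ z hz).1 ?_
    rw [iteratedDeriv_zero]
    exact (hZ z hz).2
  | succ n ih =>
    intro a b F hF h
    refine step n a b F hF (ih a b (deriv F) (contDiff_infty_iff_deriv.1 hF).2 ?_)
    intro t ht
    have h1 := h t ht
    rwa [iteratedDeriv_succ'] at h1

end Pool.Agent.NH75.LW
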