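import Pool.Agent.NH75.LW.Stm

/-!
# Project LW, job SG: sign of a function near a zero of order `n`
-/

set_option autoImplicit false

namespace Pool.Agent.NH75.LW

open Set Filter Topology
open scoped ContDiff

theorem t_SG : S_SG := by
  intro n
  induction n with
  | zero =>
    intro F t₀ hF _ hn
    rw [iteratedDeriv_zero] at hn ⊢
    have hc : Continuous F := hF.continuous
    have h1 : ∀ᶠ t in 𝓝 t₀, 0 < F t₀ * F t := by
      have h2 : ContinuousAt (fun t => F t₀ * F t) t₀ := (continuous_const.mul hc).continuousAt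
      exact h2.eventually (lt_mem_nhds (mul_self_pos.2 hn))
    obtain ⟨δ, hδ, h3⟩ := Metric.eventually_nhds_iff.1 h1
    refine ⟨δ, hδ, fun x hx0 hx => ⟨h3 ?_, ?_⟩⟩
    · rw [Real.dist_eq, add_sub_cancel_left, abs_of_pos hx0]
      exact hx
    · rw [pow_zero, one_mul]
      apply h3
      rw [Real.dist_eq, sub_sub_cancel_left, abs_neg, abs_of_pos hx0]
      exact hx
  | succ n ih =>
    intro F t₀ hF hj hn
    have hdF : ContDiff ℝ ∞ (deriv F) := (contDiff_infty_iff_deriv.1 hF).2
    have hdiff : Differentiable ℝ F := (contDiff_infty_iff_deriv.1 hF).1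
    rw [iteratedDeriv_succ'] at hn ⊢
    obtain ⟨δ, hδ, h⟩ := ih (deriv F) t₀ hdF (fun j hjn => by
      have := hj (j + 1) (by omega)
      rwa [iteratedDeriv_succ'] at this) hn
    have h0 : F t₀ = 0 := by
      have := hj 0 (by omega)
      rwa [iteratedDeriv_zero] at this
    set c : ℝ := iteratedDeriv n (deriv F) t₀ with hc
    refine ⟨δ, hδ, fun x hx0 hx => ⟨?_, ?_⟩⟩
    · obtain ⟨y, hy, he⟩ := exists_deriv_eq_slope F (show t₀ < t₀ + x by linarith)
        hdiff.continuous.continuousOn hdiff.differentiableOn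
      have h1 := (h (y - t₀) (by linarith [hy.1]) (by linarith [hy.2])).1
      rw [add_sub_cancel, he, h0, sub_zero, add_sub_cancel_left] at h1
      have h2 : c * F (t₀ + x) = (c * (F (t₀ + x) / x)) * x := by
        field_simp
      rw [h2]
      exact mul_pos h1 hx0
    · obtain ⟨y, hy, he⟩ := exists_deriv_eq_slope F (show t₀ - x < t₀ by linarith)
        hdiff.continuous.continuousOn hdiff.differentiableOn
      have h1 := (h (t₀ - y) (by linarith [hy.2]) (by linarith [hy.1])).2
      rw [sub_sub_cancel, he, h0, zero_sub, sub_sub_cancel] at h1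
      have h2 : (-1 : ℝ) ^ (n + 1) * c * F (t₀ - x) = ((-1) ^ n * c * (-F (t₀ - x) / x)) * x := by
        field_simp
        ring
      rw [h2]
      exact mul_pos h1 hx0

end Pool.Agent.NH75.LW
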